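import Pool.Agent.Helper41.LD5.Defs
import Pool.Agent.Helper23.LD.KR

/-!
# Block NRE of LD5: nonresonance gives equidistribution
-/

set_option autoImplicit false

namespace Pool.Agent.Helper41.LD5

open Set MeasureTheory Filter Topology
open Pool.Agent.Helper41.LD2 (EqA)

theorem NRa_EqA {D K Q₀ : ℕ} {α : ℝ} (hK : 1 ≤ K) (h : NRa D K α) (hQ : 2 ^ ((D + 40) * K) ≤ Q₀) : EqA α Q₀ ((1 / 2) ^ (12 * K)) := by
  intro Q hQ₀ x p q hp hpq hq
  have hk := Pool.Agent.Helper23.LD.kron (α := α) (H := 2 ^ (12 * K + 3)) (X := 2 ^ (D * K)) Nat.one_le_two_pow Nat.one_le_two_pow (by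
    intro q' hq1 hq2 p'
    refine lt_of_lt_of_le ?_ (h q' hq1 (hq2.trans (Nat.pow_le_pow_right (by norm_num) (by omega))) p')
    rw [one_div_pow]
    apply one_div_lt_one_div_of_lt (by positivity)
    push_cast
    linarith) Q x hp hpq hq
  refine hk.trans ?_
  have h1 : (2 : ℝ) ^ (D * K) * 2 ^ (12 * K + 1) ≤ Q := by
    have h2 : 2 ^ (D * K) * 2 ^ (12 * K + 1) ≤ Q := by
      rw [← pow_add]
      refine (Nat.pow_le_pow_right (by norm_num) ?_).trans (hQ.trans hQ₀)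
      rw [add_mul]
      omega
    exact_mod_cast h2
  have h3 : (1 / 2 : ℝ) ^ (12 * K) * 2 ^ (12 * K) = 1 := by
    rw [← mul_pow]
    norm_num
  have h4 : (0 : ℝ) < (1 / 2 : ℝ) ^ (12 * K) := by positivity
  have h5 : (0 : ℝ) < (2 : ℝ) ^ (12 * K) := by positivity
  push_cast
  have h6 : 4 * ((Q : ℝ) / 2 ^ (12 * K + 3)) = (1 / 2) ^ (12 * K) * Q / 2 := by
    rw [pow_add]
    field_simp
    nlinarith [h3]
  have h7 : (2 : ℝ) ^ (D * K) ≤ (1 / 2) ^ (12 * K) * Q / 2 := by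
    have h8 := mul_le_mul_of_nonneg_left h1 h4.le
    have h9 : (1 / 2 : ℝ) ^ (12 * K) * (2 ^ (D * K) * 2 ^ (12 * K + 1)) = 2 ^ (D * K) * 2 := by
      rw [pow_succ]
      calc (1 / 2 : ℝ) ^ (12 * K) * (2 ^ (D * K) * (2 ^ (12 * K) * 2)) = ((1 / 2 : ℝ) ^ (12 * K) * 2 ^ (12 * K)) * (2 ^ (D * K) * 2) := by ring
        _ = _ := by rw [h3, one_mul]
    rw [h9] at h8
    linarith
  rw [h6]
  linarith

end Pool.Agent.Helper41.LD5
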