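import Pool.Agent.Helper41.LD5.Defs

/-!
# Block TPA of LD5: the times of the powers
-/

set_option autoImplicit false

namespace Pool.Agent.Helper41.LD5

open Set MeasureTheory Filter Topology
open Pool.Agent.Helper41.LD4

namespace TPA

variable {A₀ : ℝ} {P Q m m' e : ℕ} {x y a ℓ : ℝ}

theorem fp_nn (hA : 0 < A₀) (hx : 0 < x) : 0 ≤ fp A₀ P m x := by
  unfold fp
  positivity

theorem fp_st (hA : 0 < A₀) (hP : 1 ≤ P) (h1 : 1 ≤ y) (hyx : y ≤ x) (hmm : m ≤ m') :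
    fp A₀ P m x * (y ^ (1 / (P : ℝ))) ^ (m' - m) ≤ fp A₀ P m' x := by
  have hP0 : (0 : ℝ) < P := by exact_mod_cast hP
  have hy0 : 0 < y := by linarith
  have hx0 : 0 < x := by linarith
  have h2 : (y ^ (1 / (P : ℝ))) ^ (m' - m) ≤ x ^ (((m' : ℝ) - m) / P) := by
    rw [← Real.rpow_natCast, ← Real.rpow_mul hy0.le, Nat.cast_sub hmm]
    have h3 : 1 / (P : ℝ) * ((m' : ℝ) - m) = ((m' : ℝ) - m) / P := by ring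
    rw [h3]
    apply Real.rpow_le_rpow hy0.le hyx
    have : (m : ℝ) ≤ m' := by exact_mod_cast hmm
    apply div_nonneg (by linarith) hP0.le
  have h4 : fp A₀ P m x * x ^ (((m' : ℝ) - m) / P) ≤ fp A₀ P m' x := by
    unfold fp
    have h5 : x ^ ((m : ℝ) / P - 1) * x ^ (((m' : ℝ) - m) / P) = x ^ ((m' : ℝ) / P - 1) := by
      rw [← Real.rpow_add hx0]
      congr 1
      ring
    rw [mul_assoc, h5]
    apply mul_le_mul_of_nonneg_right _ (by positivity)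
    apply mul_le_mul_of_nonneg_left _ hA.le
    apply div_le_div_of_nonneg_right _ hP0.le
    exact_mod_cast hmm
  exact (mul_le_mul_of_nonneg_left h2 (fp_nn hA hx0)).trans h4

theorem fp_le (hA : 0 < A₀) (hP : 1 ≤ P) (h1 : 1 ≤ x) (hmm : m ≤ m') : fp A₀ P m x ≤ fp A₀ P m' x := by
  have := fp_st hA hP le_rfl h1 hmm
  rwa [Real.one_rpow, one_pow, mul_one] at this

theorem fp_P (hP : 1 ≤ P) : fp A₀ P P x = A₀ := by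
  have hP0 : (P : ℝ) ≠ 0 := by
    have : (0 : ℝ) < P := by exact_mod_cast hP
    exact this.ne'
  unfold fp
  rw [div_self hP0]
  norm_num

end TPA

section

variable {F : Fam} {κ D K : ℕ} {a₀ ℓst a ℓ x : ℝ} {m e : ℕ}

namespace TPA

theorem add_le (hF : F.Ok) (hm : F.P ≤ m) (h1 : F.x₁ ≤ x) (h2 : x ≤ F.x₂) : fp F.A₀ F.P (m + F.Q) x ≤ 2 ^ F.DF * fp F.A₀ F.P m x := by
  have hP0 : (0 : ℝ) < F.P := by exact_mod_cast hF.hP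
  have hx1 : 1 < x := hF.h1.trans_le h1
  have hx0 : 0 < x := by linarith
  have hA := hF.hA
  have hQ0 : (0 : ℝ) ≤ F.Q := Nat.cast_nonneg _
  have hmP : (F.P : ℝ) ≤ m := by exact_mod_cast hm
  unfold fp
  have h5 : x ^ (((m + F.Q : ℕ) : ℝ) / F.P - 1) = x ^ ((m : ℝ) / F.P - 1) * x ^ ((F.Q : ℝ) / F.P) := by
    rw [← Real.rpow_add hx0]
    congr 1
    push_cast
    ring
  rw [h5]
  have h6 : ((m + F.Q : ℕ) : ℝ) / F.P ≤ ((m : ℝ) / F.P) * (1 + (F.Q : ℝ) / F.P) := by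
    push_cast
    have h7 : 1 ≤ (m : ℝ) / F.P := by rwa [le_div_iff₀ hP0, one_mul]
    have h8 : (F.Q : ℝ) / F.P * 1 ≤ (F.Q : ℝ) / F.P * ((m : ℝ) / F.P) := mul_le_mul_of_nonneg_left h7 (by positivity)
    rw [add_div]
    nlinarith
  have h7 : x ^ ((F.Q : ℝ) / F.P) ≤ F.x₂ ^ ((F.Q : ℝ) / F.P) := Real.rpow_le_rpow hx0.le h2 (by positivity)
  have h8 : 0 ≤ x ^ ((m : ℝ) / F.P - 1) := by positivity
  have h9 : 0 ≤ x ^ ((F.Q : ℝ) / F.P) := by positivity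
  calc F.A₀ * (((m + F.Q : ℕ) : ℝ) / F.P) * (x ^ ((m : ℝ) / F.P - 1) * x ^ ((F.Q : ℝ) / F.P))
      ≤ F.A₀ * (((m : ℝ) / F.P) * (1 + (F.Q : ℝ) / F.P)) * (x ^ ((m : ℝ) / F.P - 1) * F.x₂ ^ ((F.Q : ℝ) / F.P)) := by
        apply mul_le_mul (mul_le_mul_of_nonneg_left h6 hA.le) (mul_le_mul_of_nonneg_left h7 h8) (by positivity) (by positivity)
    _ = ((1 + (F.Q : ℝ) / F.P) * F.x₂ ^ ((F.Q : ℝ) / F.P)) * (F.A₀ * ((m : ℝ) / F.P) * x ^ ((m : ℝ) / F.P - 1)) := by ring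
    _ ≤ 2 ^ F.DF * (F.A₀ * ((m : ℝ) / F.P) * x ^ ((m : ℝ) / F.P - 1)) :=
        mul_le_mul_of_nonneg_right hF.hDF (by positivity)

theorem add_mul_le (hF : F.Ok) (hm : F.P ≤ m) (h1 : F.x₁ ≤ x) (h2 : x ≤ F.x₂) (n : ℕ) :
    fp F.A₀ F.P (m + F.Q * n) x ≤ 2 ^ (F.DF * n) * fp F.A₀ F.P m x := by
  induction n with
  | zero => simp
  | succ n ih =>
    have h3 : m + F.Q * (n + 1) = (m + F.Q * n) + F.Q := by ring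
    rw [h3]
    refine (add_le hF (hm.trans (Nat.le_add_right _ _)) h1 h2).trans ?_
    refine (mul_le_mul_of_nonneg_left ih (by positivity)).trans (le_of_eq ?_)
    rw [← mul_assoc, ← pow_add]
    congr 2
    ring

/-- lower bound of the size from the exponent -/
theorem low (hF : F.Ok) (h1 : F.x₁ ≤ a) (n : ℕ) (hm : F.P + F.P * F.Cx * (n + F.Cx) ≤ m) : (2 : ℝ) ^ n ≤ fp F.A₀ F.P m a := by
  have hP0 : (0 : ℝ) < F.P := by exact_mod_cast hF.hP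
  have hx1 := hF.h1
  have hx0 : 0 < F.x₁ := by linarith
  have h2 := fp_st (P := F.P) (m := F.P) (m' := F.P + F.P * F.Cx * (n + F.Cx)) hF.hA hF.hP hF.h1.le h1 (Nat.le_add_right _ _)
  rw [fp_P hF.hP, Nat.add_sub_cancel_left] at h2
  have h3 : (F.x₁ ^ (1 / (F.P : ℝ))) ^ (F.P * F.Cx * (n + F.Cx)) = (F.x₁ ^ F.Cx) ^ (n + F.Cx) := by
    rw [mul_assoc, pow_mul, pow_mul]
    congr 2
    rw [← Real.rpow_natCast, ← Real.rpow_mul hx0.le, one_div, inv_mul_cancel₀ hP0.ne', Real.rpow_one]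
  rw [h3] at h2
  have h4 : (2 : ℝ) ^ (n + F.Cx) ≤ (F.x₁ ^ F.Cx) ^ (n + F.Cx) := pow_le_pow_left₀ (by norm_num) hF.hx1 _
  have h5 : (2 : ℝ) ^ n ≤ F.A₀ * 2 ^ (n + F.Cx) := by
    rw [pow_add]
    have h6 := mul_le_mul_of_nonneg_left hF.hA2 (show (0 : ℝ) ≤ 2 ^ n by positivity)
    linarith
  calc (2 : ℝ) ^ n ≤ F.A₀ * 2 ^ (n + F.Cx) := h5
    _ ≤ F.A₀ * (F.x₁ ^ F.Cx) ^ (n + F.Cx) := mul_le_mul_of_nonneg_left h4 hF.hA.le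
    _ ≤ _ := h2
    _ ≤ _ := fp_le hF.hA hF.hP (hF.h1.le.trans h1) hm

end TPA

/-! ## The times -/

theorem tp_spec (hF : F.Ok) (h1 : F.x₁ ≤ a) (hℓ : 0 < ℓ) (e : ℕ) : 1 ≤ fp F.A₀ F.P (F.Q * tp F.A₀ F.P F.Q e a ℓ + e) a * ℓ := by
  have hne : {j : ℕ | 1 ≤ fp F.A₀ F.P (F.Q * j + e) a * ℓ}.Nonempty := by
    obtain ⟨n, hn⟩ := pow_unbounded_of_one_lt (1 / ℓ) (show (1 : ℝ) < 2 by norm_num)
    refine ⟨F.P + F.P * F.Cx * (n + F.Cx), ?_⟩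
    have h2 : (2 : ℝ) ^ n ≤ fp F.A₀ F.P (F.Q * (F.P + F.P * F.Cx * (n + F.Cx)) + e) a := by
      apply TPA.low hF h1
      have := Nat.le_mul_of_pos_left (F.P + F.P * F.Cx * (n + F.Cx)) hF.H.base.hQ
      omega
    show 1 ≤ fp F.A₀ F.P (F.Q * (F.P + F.P * F.Cx * (n + F.Cx)) + e) a * ℓ
    have h3 : 1 / ℓ ≤ fp F.A₀ F.P (F.Q * (F.P + F.P * F.Cx * (n + F.Cx)) + e) a := hn.le.trans h2
    rwa [div_le_iff₀ hℓ] at h3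
  exact Nat.sInf_mem hne

theorem lt_tp {j : ℕ} (hj : j < tp F.A₀ F.P F.Q e a ℓ) : fp F.A₀ F.P (F.Q * j + e) a * ℓ < 1 :=
  not_le.1 (Nat.notMem_of_lt_sInf hj)

theorem tp_le {j : ℕ} (hj : 1 ≤ fp F.A₀ F.P (F.Q * j + e) a * ℓ) : tp F.A₀ F.P F.Q e a ℓ ≤ j := Nat.sInf_le hj

theorem tp_gt (hF : F.Ok) (h1 : F.x₁ ≤ a) (hℓ : 0 < ℓ) {j : ℕ} (hj : fp F.A₀ F.P (F.Q * j + e) a * ℓ < 1) : j < tp F.A₀ F.P F.Q e a ℓ := by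
  by_contra h
  push Not at h
  have h2 := tp_spec hF h1 hℓ e
  have h3 : fp F.A₀ F.P (F.Q * tp F.A₀ F.P F.Q e a ℓ + e) a ≤ fp F.A₀ F.P (F.Q * j + e) a :=
    TPA.fp_le hF.hA hF.hP (hF.h1.le.trans h1) (by have := Nat.mul_le_mul_left F.Q h; omega)
  have h4 := mul_le_mul_of_nonneg_right h3 hℓ.le
  linarith

theorem tp_mono (hF : F.Ok) (h1 : F.x₁ ≤ a) {ℓ' : ℝ} (hℓ' : 0 < ℓ') (hle : ℓ' ≤ ℓ) : tp F.A₀ F.P F.Q e a ℓ ≤ tp F.A₀ F.P F.Q e a ℓ' := by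
  apply tp_le
  refine (tp_spec hF h1 hℓ' e).trans (mul_le_mul_of_nonneg_left hle ?_)
  exact TPA.fp_nn hF.hA (by have := hF.h1; linarith)

theorem tp_block_le (hF : F.Ok) (h1 : F.x₁ ≤ a) (hℓ : 0 < ℓ) (Λ : ℕ) : tp F.A₀ F.P F.Q e a (ℓ / 2 ^ Λ) ≤ tp F.A₀ F.P F.Q e a ℓ + F.CF * Λ := by
  apply tp_le
  have h2 := tp_spec hF h1 hℓ e
  have h3 := TPA.fp_st (P := F.P) (m := F.Q * tp F.A₀ F.P F.Q e a ℓ + e) (m' := F.Q * (tp F.A₀ F.P F.Q e a ℓ + F.CF * Λ) + e) hF.hA hF.hP hF.h1.le h1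
    (by rw [mul_add]; omega)
  have h4 : F.Q * (tp F.A₀ F.P F.Q e a ℓ + F.CF * Λ) + e - (F.Q * tp F.A₀ F.P F.Q e a ℓ + e) = F.Q * F.CF * Λ := by
    rw [mul_add, ← mul_assoc]
    omega
  rw [h4] at h3
  have h5 : (2 : ℝ) ^ Λ ≤ (F.x₁ ^ (1 / (F.P : ℝ))) ^ (F.Q * F.CF * Λ) := by
    have h6 := hF.H.base.hCF F.g (Nat.lt_succ_self _)
    have h7 : F.τ5 F.g = F.x₁ ^ (1 / (F.P : ℝ)) := by
      unfold Fam.τ5
      rw [if_neg (lt_irrefl _)]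
    rw [h7] at h6
    rw [pow_mul, pow_mul]
    exact pow_le_pow_left₀ (by norm_num) h6 _
  have hf0 : 0 ≤ fp F.A₀ F.P (F.Q * tp F.A₀ F.P F.Q e a ℓ + e) a := TPA.fp_nn hF.hA (by have := hF.h1; linarith)
  have h8 := (mul_le_mul_of_nonneg_left h5 hf0).trans h3
  have h9 : (0 : ℝ) < 2 ^ Λ := by positivity
  rw [← mul_div_assoc, le_div_iff₀ h9, one_mul]
  calc (2 : ℝ) ^ Λ = 1 * 2 ^ Λ := (one_mul _).symm
    _ ≤ (fp F.A₀ F.P (F.Q * tp F.A₀ F.P F.Q e a ℓ + e) a * ℓ) * 2 ^ Λ := mul_le_mul_of_nonneg_right h2 h9.le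
    _ = (fp F.A₀ F.P (F.Q * tp F.A₀ F.P F.Q e a ℓ + e) a * 2 ^ Λ) * ℓ := by ring
    _ ≤ _ := mul_le_mul_of_nonneg_right h8 hℓ.le

/-- small exponents are not used -/
theorem fp_small (hF : F.Ok) (hK : 100 * F.Cx ^ 3 ≤ K) (h1 : F.x₁ ≤ a) (h2 : a ≤ F.x₂) (hℓ : 0 < ℓ) (hℓK : ℓ * 2 ^ K ≤ 1) (hm : m ≤ 4 * F.P * F.Q) :
    fp F.A₀ F.P m a * ℓ < 1 := by
  have hP0 : (0 : ℝ) < F.P := by exact_mod_cast hF.hP
  have hx1 : 1 ≤ a := hF.h1.le.trans h1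
  have ha0 : 0 < a := by linarith
  have hC1 := hF.hCx
  have hQC := hF.hQC
  have h3 : fp F.A₀ F.P m a ≤ fp F.A₀ F.P (4 * F.P * F.Q) a := TPA.fp_le hF.hA hF.hP hx1 hm
  have h4 : fp F.A₀ F.P (4 * F.P * F.Q) a ≤ 2 ^ F.Cx * (4 * F.Cx) * (2 ^ F.Cx) ^ (4 * F.Cx) := by
    unfold fp
    have e1 : ((4 * F.P * F.Q : ℕ) : ℝ) / F.P = 4 * F.Q := by
      push_cast
      field_simp
    rw [e1]
    have e2 : (4 * (F.Q : ℝ)) ≤ 4 * F.Cx := by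
      have : (F.Q : ℝ) ≤ F.Cx := by exact_mod_cast hQC
      linarith
    have e3 : a ^ (4 * (F.Q : ℝ) - 1) ≤ (2 ^ F.Cx) ^ (4 * F.Cx) := by
      calc a ^ (4 * (F.Q : ℝ) - 1) ≤ a ^ ((4 * F.Cx : ℕ) : ℝ) := by
            apply Real.rpow_le_rpow_of_exponent_le hx1
            push_cast
            linarith
        _ = a ^ (4 * F.Cx) := Real.rpow_natCast _ _
        _ ≤ _ := pow_le_pow_left₀ ha0.le (h2.trans hF.hx2) _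
    have hA := hF.hA
    exact mul_le_mul (mul_le_mul hF.hA1 e2 (by positivity) (by positivity)) e3 (by positivity) (by positivity)
  have h5 : (2 : ℝ) ^ F.Cx * (4 * F.Cx) * (2 ^ F.Cx) ^ (4 * F.Cx) ≤ 2 ^ (10 * F.Cx ^ 2) := by
    have e1 : (4 : ℝ) * F.Cx ≤ 2 ^ (F.Cx + 2) := by
      have e2 : (F.Cx : ℝ) ≤ 2 ^ F.Cx := by exact_mod_cast (Nat.lt_two_pow_self).le
      rw [pow_add]
      linarith
    calc (2 : ℝ) ^ F.Cx * (4 * F.Cx) * (2 ^ F.Cx) ^ (4 * F.Cx) ≤ (2 : ℝ) ^ F.Cx * 2 ^ (F.Cx + 2) * (2 ^ F.Cx) ^ (4 * F.Cx) := by gcongr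
      _ = 2 ^ (F.Cx + (F.Cx + 2) + F.Cx * (4 * F.Cx)) := by rw [← pow_mul, ← pow_add, ← pow_add]
      _ ≤ _ := by
        apply pow_le_pow_right₀ (by norm_num)
        nlinarith
  have h6 : (2 : ℝ) ^ (10 * F.Cx ^ 2) < 2 ^ K := by
    apply pow_lt_pow_right₀ (by norm_num)
    have : F.Cx ^ 2 ≤ F.Cx ^ 3 := Nat.pow_le_pow_right hC1 (by norm_num)
    have h8 : 1 ≤ F.Cx ^ 2 := Nat.one_le_pow _ _ hC1
    omega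
  calc fp F.A₀ F.P m a * ℓ ≤ 2 ^ (10 * F.Cx ^ 2) * ℓ := mul_le_mul_of_nonneg_right (h3.trans (h4.trans h5)) hℓ.le
    _ < 2 ^ K * ℓ := mul_lt_mul_of_pos_right h6 hℓ
    _ ≤ 1 := by rw [mul_comm]; exact hℓK

theorem tp_big (hF : F.Ok) (hK : 100 * F.Cx ^ 3 ≤ K) (h1 : F.x₁ ≤ a) (h2 : a ≤ F.x₂) (hℓ : 0 < ℓ) (hℓK : ℓ * 2 ^ K ≤ 1) (e : ℕ) :
    4 * F.P * F.Q < F.Q * tp F.A₀ F.P F.Q e a ℓ + e := by
  by_contra h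
  push Not at h
  have h3 := fp_small hF hK h1 h2 hℓ hℓK h
  have h4 := tp_spec hF h1 hℓ e
  linarith

/-- the predecessor of the time is a legal exponent -/
theorem TPA.pred (hF : F.Ok) (hK : 100 * F.Cx ^ 3 ≤ K) (h1 : F.x₁ ≤ a) (h2 : a ≤ F.x₂) (hℓ : 0 < ℓ) (hℓK : ℓ * 2 ^ K ≤ 1) (he : e < F.Q) :
    1 ≤ tp F.A₀ F.P F.Q e a ℓ ∧ F.P ≤ F.Q * (tp F.A₀ F.P F.Q e a ℓ - 1) + e := by
  have h3 := tp_big hF hK h1 h2 hℓ hℓK e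
  have hP := hF.hP
  have hQ := hF.H.base.hQ
  have h4 : F.Q ≤ F.P * F.Q := Nat.le_mul_of_pos_left _ hP
  have h4' : F.P ≤ F.P * F.Q := Nat.le_mul_of_pos_right _ hQ
  have h5 : 4 * F.P * F.Q = 4 * (F.P * F.Q) := by ring
  rw [h5] at h3
  have h6 : 1 ≤ tp F.A₀ F.P F.Q e a ℓ := by
    by_contra h
    have h7 : tp F.A₀ F.P F.Q e a ℓ = 0 := by omega
    rw [h7, mul_zero] at h3
    omega
  refine ⟨h6, ?_⟩
  have h7 : F.Q * tp F.A₀ F.P F.Q e a ℓ = F.Q * (tp F.A₀ F.P F.Q e a ℓ - 1) + F.Q := by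
    conv_lhs => rw [← Nat.sub_add_cancel h6]
    ring
  omega

theorem TPA.fp_add_lt (hF : F.Ok) (hK : 100 * F.Cx ^ 3 ≤ K) (h1 : F.x₁ ≤ a) (h2 : a ≤ F.x₂) (hℓ : 0 < ℓ) (hℓK : ℓ * 2 ^ K ≤ 1) (he : e < F.Q)
    (n : ℕ) : fp F.A₀ F.P (F.Q * (tp F.A₀ F.P F.Q e a ℓ + n) + e) a * ℓ < 2 ^ (F.DF * (n + 1)) := by
  obtain ⟨h3, h4⟩ := TPA.pred hF hK h1 h2 hℓ hℓK he
  have h5 : F.Q * (tp F.A₀ F.P F.Q e a ℓ + n) + e = (F.Q * (tp F.A₀ F.P F.Q e a ℓ - 1) + e) + F.Q * (n + 1) := by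
    conv_lhs => rw [← Nat.sub_add_cancel h3]
    ring
  have h6 := lt_tp (F := F) (e := e) (a := a) (ℓ := ℓ) (j := tp F.A₀ F.P F.Q e a ℓ - 1) (by omega)
  rw [h5]
  calc fp F.A₀ F.P ((F.Q * (tp F.A₀ F.P F.Q e a ℓ - 1) + e) + F.Q * (n + 1)) a * ℓ
      ≤ (2 ^ (F.DF * (n + 1)) * fp F.A₀ F.P (F.Q * (tp F.A₀ F.P F.Q e a ℓ - 1) + e) a) * ℓ :=
        mul_le_mul_of_nonneg_right (TPA.add_mul_le hF h4 h1 h2 (n + 1)) hℓ.le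
    _ = 2 ^ (F.DF * (n + 1)) * (fp F.A₀ F.P (F.Q * (tp F.A₀ F.P F.Q e a ℓ - 1) + e) a * ℓ) := by ring
    _ < 2 ^ (F.DF * (n + 1)) * 1 := mul_lt_mul_of_pos_left h6 (by positivity)
    _ = _ := mul_one _

theorem fp_tp_le (hF : F.Ok) (hK : 100 * F.Cx ^ 3 ≤ K) (h1 : F.x₁ ≤ a) (h2 : a ≤ F.x₂) (hℓ : 0 < ℓ) (hℓK : ℓ * 2 ^ K ≤ 1) (he : e < F.Q) :
    fp F.A₀ F.P (F.Q * tp F.A₀ F.P F.Q e a ℓ + e) a * ℓ ≤ 2 ^ F.DF := by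
  have := TPA.fp_add_lt hF hK h1 h2 hℓ hℓK he 0
  rw [add_zero, zero_add, mul_one] at this
  exact this.le

theorem tp_block_ge (hF : F.Ok) (hK : 100 * F.Cx ^ 3 ≤ K) (h1 : F.x₁ ≤ a) (h2 : a ≤ F.x₂) (hℓ : 0 < ℓ) (hℓK : ℓ * 2 ^ K ≤ 1) (he : e < F.Q)
    {n Λ : ℕ} (hn : F.DF * n < Λ) : tp F.A₀ F.P F.Q e a ℓ + n ≤ tp F.A₀ F.P F.Q e a (ℓ / 2 ^ Λ) := by
  have hΛ : (0 : ℝ) < 2 ^ Λ := by positivity
  rcases Nat.eq_zero_or_pos n with h0 | h0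
  · rw [h0, add_zero]
    apply tp_mono hF h1 (by positivity)
    exact div_le_self hℓ.le (one_le_pow₀ (by norm_num))
  · have h3 := TPA.fp_add_lt hF hK h1 h2 hℓ hℓK he (n - 1)
    rw [Nat.sub_add_cancel h0] at h3
    have h4 : fp F.A₀ F.P (F.Q * (tp F.A₀ F.P F.Q e a ℓ + (n - 1)) + e) a * (ℓ / 2 ^ Λ) < 1 := by
      rw [← mul_div_assoc, div_lt_one hΛ]
      exact h3.trans_le (pow_le_pow_right₀ (by norm_num) hn.le)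
    have h5 := tp_gt hF h1 (by positivity) h4
    omega

/-- the exponents of a stage are at most `2 ^ (3 K)` (and the same for `τ h ^ u`) -/
theorem tp_bound (hF : F.Ok) (hκ : 1 ≤ κ) (B : F.Big κ D K) (S : F.St κ D K a₀ ℓst) (he : e < F.Q) {j : ℕ} (hj : j ≤ 2 ^ (2 * K)) :
    F.Q * (tp F.A₀ F.P F.Q e a₀ ℓst + j) + e ≤ 2 ^ (3 * K) := by
  have hC1 := hF.hCx
  have h3 : tp F.A₀ F.P F.Q e a₀ ℓst ≤ F.P + F.P * F.Cx * (2 ^ (2 * K) + F.Cx) := by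
    apply tp_le
    have h4 : (2 : ℝ) ^ (2 ^ (2 * K)) ≤ fp F.A₀ F.P (F.Q * (F.P + F.P * F.Cx * (2 ^ (2 * K) + F.Cx)) + e) a₀ := by
      apply TPA.low hF S.lo
      have := Nat.le_mul_of_pos_left (F.P + F.P * F.Cx * (2 ^ (2 * K) + F.Cx)) hF.H.base.hQ
      omega
    have h5 := mul_le_mul_of_nonneg_right h4 S.pos.le
    have h6 := S.lg
    linarith
  have hP := hF.hPC
  have hQ := hF.hQC
  have hK := B.hCx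
  have hX : K ≤ 2 ^ K := Nat.lt_two_pow_self.le
  have h3K : 2 ^ (3 * K) = 2 ^ (2 * K) * 2 ^ K := by rw [← pow_add]; congr 1; ring
  set X := 2 ^ (2 * K) with hXd
  have hKX : 2 ^ K ≤ X := Nat.pow_le_pow_right (by norm_num) (by omega)
  have hC3 : F.Cx ≤ F.Cx ^ 3 := Nat.le_self_pow (by norm_num) _
  have hC23 : F.Cx ^ 2 ≤ F.Cx ^ 3 := Nat.pow_le_pow_right hC1 (by norm_num)
  have hCX : F.Cx ≤ X := by omega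
  have hX1 : 1 ≤ X := by omega
  calc F.Q * (tp F.A₀ F.P F.Q e a₀ ℓst + j) + e ≤ F.Cx * ((F.Cx + F.Cx * F.Cx * (X + F.Cx)) + X) + F.Cx := by
        gcongr
        · refine h3.trans ?_
          gcongr
        · omega
    _ ≤ F.Cx * ((F.Cx + F.Cx * F.Cx * (X + X)) + X) + F.Cx := by gcongr
    _ = F.Cx ^ 2 + 2 * (F.Cx ^ 3 * X) + F.Cx * X + F.Cx := by ring
    _ ≤ F.Cx ^ 3 * X + 2 * (F.Cx ^ 3 * X) + F.Cx ^ 3 * X + F.Cx ^ 3 * X := by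
        have e1 : F.Cx ^ 2 ≤ F.Cx ^ 3 * X := hC23.trans (Nat.le_mul_of_pos_right _ hX1)
        have e2 : F.Cx * X ≤ F.Cx ^ 3 * X := Nat.mul_le_mul_right _ hC3
        have e3 : F.Cx ≤ F.Cx ^ 3 * X := hC3.trans (Nat.le_mul_of_pos_right _ hX1)
        omega
    _ = X * (5 * F.Cx ^ 3) := by ring
    _ ≤ X * 2 ^ K := Nat.mul_le_mul_left _ (by omega)
    _ = _ := h3K.symm

/-- a bound for the exponents from the size -/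
theorem exp_bound (hF : F.Ok) (B : F.Big κ D K) (ha : F.x₁ ≤ a) (hm : F.P ≤ m)
    (h : fp F.A₀ F.P m a ≤ 2 ^ (2 ^ (2 * K) * (2 * F.Cx + 2))) : m ≤ 2 ^ (3 * K) := by
  have hC1 := hF.hCx
  have hP := hF.hPC
  have hK := B.hCx
  have hX : K ≤ 2 ^ K := Nat.lt_two_pow_self.le
  have h3K : 2 ^ (3 * K) = 2 ^ (2 * K) * 2 ^ K := by rw [← pow_add]; congr 1; ring
  by_contra hcon
  push Not at hcon
  set X := 2 ^ (2 * K) with hXd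
  have hKX : 2 ^ K ≤ X := Nat.pow_le_pow_right (by norm_num) (by omega)
  have hC3 : F.Cx ≤ F.Cx ^ 3 := Nat.le_self_pow (by norm_num) _
  have hC23 : F.Cx ^ 2 ≤ F.Cx ^ 3 := Nat.pow_le_pow_right hC1 (by norm_num)
  have hX1 : 1 ≤ X := by omega
  have h1 : F.P + F.P * F.Cx * (X * (2 * F.Cx + 2) + 1 + F.Cx) ≤ m := by
    refine le_trans ?_ hcon.le
    calc F.P + F.P * F.Cx * (X * (2 * F.Cx + 2) + 1 + F.Cx) ≤ F.Cx + F.Cx * F.Cx * (X * (2 * F.Cx + 2) + 1 + F.Cx) := by gcongr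
      _ = F.Cx + 2 * (F.Cx ^ 3 * X) + 2 * (F.Cx ^ 2 * X) + F.Cx ^ 2 + F.Cx ^ 3 := by ring
      _ ≤ F.Cx ^ 3 * X + 2 * (F.Cx ^ 3 * X) + 2 * (F.Cx ^ 3 * X) + F.Cx ^ 3 * X + F.Cx ^ 3 * X := by
          have e1 : F.Cx ^ 2 ≤ F.Cx ^ 3 * X := hC23.trans (Nat.le_mul_of_pos_right _ hX1)
          have e2 : F.Cx ^ 2 * X ≤ F.Cx ^ 3 * X := Nat.mul_le_mul_right _ hC23
          have e3 : F.Cx ≤ F.Cx ^ 3 * X := hC3.trans (Nat.le_mul_of_pos_right _ hX1)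
          have e4 : F.Cx ^ 3 ≤ F.Cx ^ 3 * X := Nat.le_mul_of_pos_right _ hX1
          omega
      _ = X * (7 * F.Cx ^ 3) := by ring
      _ ≤ X * 2 ^ K := Nat.mul_le_mul_left _ (by omega)
      _ = _ := h3K.symm
  have h2 := TPA.low hF ha (X * (2 * F.Cx + 2) + 1) h1
  have h4 : (2 : ℝ) ^ (X * (2 * F.Cx + 2)) < 2 ^ (X * (2 * F.Cx + 2) + 1) := pow_lt_pow_right₀ (by norm_num) (Nat.lt_succ_self _)
  linarith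

theorem exp_bound' (hF : F.Ok) (B : F.Big κ D K) {h u : ℕ} (hh : h < F.g) (hu : F.τ5 h ^ u ≤ 2 ^ (2 ^ (2 * K) * (2 * F.Cx + 2))) :
    u ≤ 2 ^ (3 * K) := by
  have hC1 := hF.hCx
  have hK := B.hCx
  have hX : K ≤ 2 ^ K := Nat.lt_two_pow_self.le
  have h3K : 2 ^ (3 * K) = 2 ^ (2 * K) * 2 ^ K := by rw [← pow_add]; congr 1; ring
  have hτ : F.τ5 h = F.τ h := by
    unfold Fam.τ5
    rw [if_pos hh]
  have hτ1 : 1 < F.τ5 h := hF.H.base.hτ h (by omega)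
  have h2 : 2 ≤ F.τ5 h ^ F.Cx := by
    rw [hτ]
    exact hF.hτx h hh
  by_contra hcon
  push Not at hcon
  set X := 2 ^ (2 * K) with hXd
  have hKX : 2 ^ K ≤ X := Nat.pow_le_pow_right (by norm_num) (by omega)
  have hC3 : F.Cx ≤ F.Cx ^ 3 := Nat.le_self_pow (by norm_num) _
  have hC23 : F.Cx ^ 2 ≤ F.Cx ^ 3 := Nat.pow_le_pow_right hC1 (by norm_num)
  have hX1 : 1 ≤ X := by omega
  have h1 : F.Cx * (X * (2 * F.Cx + 2) + 1) ≤ u := by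
    refine le_trans ?_ hcon.le
    calc F.Cx * (X * (2 * F.Cx + 2) + 1) = 2 * (F.Cx ^ 2 * X) + 2 * (F.Cx * X) + F.Cx := by ring
      _ ≤ 2 * (F.Cx ^ 3 * X) + 2 * (F.Cx ^ 3 * X) + F.Cx ^ 3 * X := by
          have e1 : F.Cx ^ 2 * X ≤ F.Cx ^ 3 * X := Nat.mul_le_mul_right _ hC23
          have e2 : F.Cx * X ≤ F.Cx ^ 3 * X := Nat.mul_le_mul_right _ hC3
          have e3 : F.Cx ≤ F.Cx ^ 3 * X := hC3.trans (Nat.le_mul_of_pos_right _ hX1)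
          omega
      _ = X * (5 * F.Cx ^ 3) := by ring
      _ ≤ X * 2 ^ K := Nat.mul_le_mul_left _ (by omega)
      _ = _ := h3K.symm
  have h4 : (2 : ℝ) ^ (X * (2 * F.Cx + 2) + 1) ≤ F.τ5 h ^ u := by
    calc (2 : ℝ) ^ (X * (2 * F.Cx + 2) + 1) ≤ (F.τ5 h ^ F.Cx) ^ (X * (2 * F.Cx + 2) + 1) := pow_le_pow_left₀ (by norm_num) h2 _
      _ = F.τ5 h ^ (F.Cx * (X * (2 * F.Cx + 2) + 1)) := by rw [pow_mul]
      _ ≤ _ := pow_le_pow_right₀ hτ1.le h1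
  have h5 : (2 : ℝ) ^ (X * (2 * F.Cx + 2)) < 2 ^ (X * (2 * F.Cx + 2) + 1) := pow_lt_pow_right₀ (by norm_num) (Nat.lt_succ_self _)
  linarith

/-- a lower bound for the length, from the count of a power class -/
theorem len_low (hF : F.Ok) (hκ : 1 ≤ κ) (B : F.Big κ D K) (S : F.St κ D K a₀ ℓst) (hℓ : 0 < ℓ) (hℓst : ℓ ≤ ℓst)
    (hcount : ∀ s < (F.g + 1) * F.Q, F.T a₀ ℓst s (ℓ / 2 ^ (K ^ (2 * κ + 1))) + F.R * K ≤ 2 ^ (2 * K)) :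
    (2 : ℝ) ^ (K ^ (2 * κ + 1)) ≤ ℓ * 2 ^ (2 ^ (2 * K) * (F.Cx + 1) + F.Cx) := by
  have hQ := hF.H.base.hQ
  have hK100 := B.hK
  have hS := S.pos
  have hsm := S.sm
  have hlg := S.lg
  have ha2 : a₀ ≤ F.x₂ := by have := S.hi; linarith
  have hℓK : ℓst * 2 ^ K ≤ 1 := by
    refine le_trans (mul_le_mul_of_nonneg_left ?_ hS.le) hsm
    exact pow_le_pow_right₀ (by norm_num) (Nat.le_self_pow (by omega) K)
  have h1 := hcount (F.g * F.Q) (by rw [add_mul]; omega)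
  have h2 : F.T a₀ ℓst (F.g * F.Q) (ℓ / 2 ^ (K ^ (2 * κ + 1))) =
      tp F.A₀ F.P F.Q 0 a₀ (ℓ / 2 ^ (K ^ (2 * κ + 1))) - tp F.A₀ F.P F.Q 0 a₀ ℓst := by
    unfold Fam.T
    rw [Nat.mul_div_cancel _ hQ, if_neg (lt_irrefl _), Nat.mul_mod_left]
  rw [h2] at h1
  set Λ := K ^ (2 * κ + 1) with hΛ
  have hΛ0 : (0 : ℝ) < 2 ^ Λ := by positivity
  have h3 := tp_spec hF S.lo (show 0 < ℓ / 2 ^ Λ by positivity) 0
  have h4 : fp F.A₀ F.P (F.Q * tp F.A₀ F.P F.Q 0 a₀ (ℓ / 2 ^ Λ) + 0) a₀ ≤ fp F.A₀ F.P (F.Q * (tp F.A₀ F.P F.Q 0 a₀ ℓst + 2 ^ (2 * K)) + 0) a₀ := by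
    apply TPA.fp_le hF.hA hF.hP (hF.h1.le.trans S.lo)
    have : tp F.A₀ F.P F.Q 0 a₀ (ℓ / 2 ^ Λ) ≤ tp F.A₀ F.P F.Q 0 a₀ ℓst + 2 ^ (2 * K) := by omega
    have := Nat.mul_le_mul_left F.Q this
    omega
  have h5 := TPA.fp_add_lt hF B.hCx S.lo ha2 hS hℓK hQ (2 ^ (2 * K))
  rw [← mul_div_assoc, le_div_iff₀ hΛ0, one_mul] at h3
  have hf0 : 0 ≤ fp F.A₀ F.P (F.Q * (tp F.A₀ F.P F.Q 0 a₀ ℓst + 2 ^ (2 * K)) + 0) a₀ := TPA.fp_nn hF.hA (by have := hF.h1; have := S.lo; linarith)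
  have h6 : fp F.A₀ F.P (F.Q * (tp F.A₀ F.P F.Q 0 a₀ ℓst + 2 ^ (2 * K)) + 0) a₀ ≤ 2 ^ (F.DF * (2 ^ (2 * K) + 1)) * 2 ^ (2 ^ (2 * K)) := by
    calc fp F.A₀ F.P (F.Q * (tp F.A₀ F.P F.Q 0 a₀ ℓst + 2 ^ (2 * K)) + 0) a₀
        = fp F.A₀ F.P (F.Q * (tp F.A₀ F.P F.Q 0 a₀ ℓst + 2 ^ (2 * K)) + 0) a₀ * 1 := (mul_one _).symm
      _ ≤ fp F.A₀ F.P (F.Q * (tp F.A₀ F.P F.Q 0 a₀ ℓst + 2 ^ (2 * K)) + 0) a₀ * (ℓst * 2 ^ (2 ^ (2 * K))) := mul_le_mul_of_nonneg_left hlg hf0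
      _ = (fp F.A₀ F.P (F.Q * (tp F.A₀ F.P F.Q 0 a₀ ℓst + 2 ^ (2 * K)) + 0) a₀ * ℓst) * 2 ^ (2 ^ (2 * K)) := by ring
      _ ≤ _ := mul_le_mul_of_nonneg_right h5.le (by positivity)
  have h7 : (2 : ℝ) ^ (F.DF * (2 ^ (2 * K) + 1)) * 2 ^ (2 ^ (2 * K)) ≤ 2 ^ (2 ^ (2 * K) * (F.Cx + 1) + F.Cx) := by
    rw [← pow_add]
    apply pow_le_pow_right₀ (by norm_num)
    have hD := hF.hDC
    calc F.DF * (2 ^ (2 * K) + 1) + 2 ^ (2 * K) ≤ F.Cx * (2 ^ (2 * K) + 1) + 2 ^ (2 * K) := by gcongr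
      _ = _ := by ring
  calc (2 : ℝ) ^ Λ ≤ fp F.A₀ F.P (F.Q * tp F.A₀ F.P F.Q 0 a₀ (ℓ / 2 ^ Λ) + 0) a₀ * ℓ := h3
    _ ≤ 2 ^ (2 ^ (2 * K) * (F.Cx + 1) + F.Cx) * ℓ := mul_le_mul_of_nonneg_right (h4.trans (h6.trans h7)) hℓ.le
    _ = _ := mul_comm _ _

end

end Pool.Agent.Helper41.LD5
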